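import Pool.Agent.H82.NTC.Pot

/-!
Row PWR: potential of the men for the women of kind `R`.
-/

set_option autoImplicit false

namespace Pool.NTC

open Pool.NET

lemma pwr_tri (S a b : ℤ) (hS : 0 < S) :
    (b = a ∧ S * b = S * a) ∨ S * b + S ≤ S * a ∨ S * a + S ≤ S * b := by
  rcases lt_trichotomy b a with h | h | h
  · right; left; nlinarith [Int.add_one_le_of_lt h]
  · left; subst h; exact ⟨rfl, rfl⟩
  · right; right; nlinarith [Int.add_one_le_of_lt h]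

lemma pwr_abs (X Y T : ℤ) (hT : 0 ≤ T)
    (h : |4 * X + 1 - 4 * Y| < |4 * X + 1 - 4 * (X + T)|) : X - T < Y ∧ Y < X + T := by
  rcases abs_cases (4 * X + 1 - 4 * Y) with ⟨e1, f1⟩ | ⟨e1, f1⟩ <;>
    rcases abs_cases (4 * X + 1 - 4 * (X + T)) with ⟨e2, f2⟩ | ⟨e2, f2⟩ <;>
    rw [e1, e2] at h <;> constructor <;> omega

theorem pwr_thm : PWk Ke.R := by
  intro p e g e' g' h u hp hp' hR tt htt v a s hs0 hs1 h1
  obtain ⟨c, r⟩ := v
  obtain ⟨⟨c', r'⟩, k⟩ := a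
  obtain ⟨q0, gq, gW, We, eM, MS⟩ := hp
  obtain ⟨q0', gq', gW', We', eM', MS'⟩ := hp'
  have ht := htt (pv2 h u ((c, r), Ke.R))
  have hy := pwr_tri p.S r r' (by omega)
  unfold Rel at hR
  simp only [pv2] at h1 ht ⊢
  generalize tt ((c, r), Ke.SE) = T at h1 ht ⊢
  obtain ⟨ht0, ht1⟩ := ht
  cases k <;> simp only [prW, fy, lvW, sgW] at h1 ⊢ <;>
    have h2 := pwr_abs _ _ _ ht0 h1 <;> clear h1 <;> obtain ⟨h2, h3⟩ := h2 <;> omega

end Pool.NTC
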